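import Pool.Agent.MZTV.Defs
import Pool.Agent.MZA.Zev

/-!
# MZTV / D: a product of two zeta values is in `K x`
-/

set_option autoImplicit false

namespace Pool.Agent.MZTV

open Pool.Agent.Helper21 (mzv H zl Adm)
open Pool.Agent.MZA Pool.Agent.MZT

private theorem D_zev (a : ℕ) (ha : Even a) (h2 : 2 ≤ a) :
    ∃ q : ℚ, 0 < q ∧ z a = q * Real.pi ^ a := by
  obtain ⟨j, hj⟩ := ha
  obtain ⟨q, hq, h⟩ := thm_Zev j (by omega)
  refine ⟨q, hq, ?_⟩
  have e : a = 2 * j := by omega
  rw [z, e]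
  exact h

private theorem D_pos (a : ℕ) (ha : Even a) (h2 : 2 ≤ a) : 0 < z a := by
  obtain ⟨q, hq, h⟩ := D_zev a ha h2
  rw [h]
  have : (0 : ℝ) < q := by exact_mod_cast hq
  exact mul_pos this (pow_pos Real.pi_pos _)

private theorem D_rho (K : IntermediateField ℚ ℝ) (a b u : ℕ) (ha : Even a) (h2 : 2 ≤ a)
    (hb : Even b) (h3 : 2 ≤ b) (hu : a + b = u) : z a * z b / z u ∈ K := by
  obtain ⟨q, hq, h⟩ := D_zev a ha h2
  obtain ⟨q', hq', h'⟩ := D_zev b hb h3
  obtain ⟨q'', hq'', h''⟩ := D_zev (a + b) (ha.add hb) (by omega)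
  rw [← hu, h, h', h'']
  have e : (q : ℝ) * Real.pi ^ a * (q' * Real.pi ^ b) / (q'' * Real.pi ^ (a + b)) =
      ((q * q' / q'' : ℚ) : ℝ) := by
    have h1 : (q'' : ℝ) ≠ 0 := by exact_mod_cast hq''.ne'
    have h4 : Real.pi ≠ 0 := Real.pi_ne_zero
    push_cast
    rw [pow_add]
    field_simp
  rw [e]
  exact K.algebraMap_mem _

private theorem D_S (n a b u : ℕ) (hu : a + b = u) (h : u ≤ n) :
    S (n - u) a b = z a * z b * z (n - u) - z u * z (n - u) - z a * z (n - a) -
      z b * z (n - b) + 2 * z n := by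
  have e1 : n - u + b = n - a := by omega
  have e2 : n - u + a = n - b := by omega
  have e3 : n - b + b = n := by omega
  rw [S, e1, e2, e3, hu]
  ring

/-- Cramer's rule for the first unknown -/
private theorem D_cramer {K : IntermediateField ℚ ℝ} (V : Submodule K ℝ) (A B G s : Fin 3 → ℝ)
    (X Y Z : ℝ) (hA : ∀ i, A i ∈ K) (hB : ∀ i, B i ∈ K) (hG : ∀ i, G i ∈ K) (hs : ∀ i, s i ∈ V)
    (heq : ∀ i, A i * X - B i * Y - G i * Z = s i)
    (hdet : A 0 * B 1 * G 2 - A 0 * G 1 * B 2 - B 0 * A 1 * G 2 + B 0 * G 1 * A 2 +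
      G 0 * A 1 * B 2 - G 0 * B 1 * A 2 ≠ 0) : X ∈ V := by
  have h0 := heq 0
  have h1 := heq 1
  have h2 := heq 2
  set D : ℝ := A 0 * B 1 * G 2 - A 0 * G 1 * B 2 - B 0 * A 1 * G 2 +
      B 0 * G 1 * A 2 + G 0 * A 1 * B 2 - G 0 * B 1 * A 2 with hD
  have hDK : D ∈ K := K.sub_mem (K.add_mem (K.add_mem (K.sub_mem (K.sub_mem
      (K.mul_mem (K.mul_mem (hA 0) (hB 1)) (hG 2)) (K.mul_mem (K.mul_mem (hA 0) (hG 1)) (hB 2)))
      (K.mul_mem (K.mul_mem (hB 0) (hA 1)) (hG 2))) (K.mul_mem (K.mul_mem (hB 0) (hG 1)) (hA 2)))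
      (K.mul_mem (K.mul_mem (hG 0) (hA 1)) (hB 2))) (K.mul_mem (K.mul_mem (hG 0) (hB 1)) (hA 2))
  have hX : X = (B 1 * G 2 - G 1 * B 2) / D * s 0 + (G 0 * B 2 - B 0 * G 2) / D * s 1 +
      (B 0 * G 1 - G 0 * B 1) / D * s 2 := by
    have h3 : D * X = (B 1 * G 2 - G 1 * B 2) * s 0 + (G 0 * B 2 - B 0 * G 2) * s 1 +
        (B 0 * G 1 - G 0 * B 1) * s 2 := by
      rw [hD, ← h0, ← h1, ← h2]
      ring
    field_simp
    linarith
  rw [hX]
  refine V.add_mem (V.add_mem (kmul ?_ (hs 0)) (kmul ?_ (hs 1))) (kmul ?_ (hs 2))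
  · exact K.div_mem (K.sub_mem (K.mul_mem (hB 1) (hG 2)) (K.mul_mem (hG 1) (hB 2))) hDK
  · exact K.div_mem (K.sub_mem (K.mul_mem (hG 0) (hB 2)) (K.mul_mem (hB 0) (hG 2))) hDK
  · exact K.div_mem (K.sub_mem (K.mul_mem (hB 0) (hG 1)) (K.mul_mem (hG 0) (hB 1))) hDK

/-- **MODULE D.** -/
theorem thm_DV (hC : St_C) {K : IntermediateField ℚ ℝ} (V : Submodule K ℝ) (n P d : ℕ) (hd : Even d)
    (hd100 : 100 ≤ d) (hn : 2 * P + 2 * d + 3 ≤ n) (e : Fin 3 → ℕ) (hPe : ∀ i, Even (P + e i))
    (he0 : 100 ≤ e 0) (he01 : e 0 + 100 ≤ e 1) (he12 : e 1 + 100 ≤ e 2) (he2 : e 2 + 100 ≤ P)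
    (hcl : ∀ i, CleanV V (n - (2 * P + d)) (P - e i) (P + e i + d) ∧
      CleanV V (n - (2 * P + d)) (P + e i) (P - e i + d) ∧
      CleanV V (n - 2 * P) (P - e i) (P + e i) ∧
      CleanV V (n - (2 * P + 2 * d)) (P - e i + d) (P + e i + d)) :
    z (2 * P + d) * z (n - (2 * P + d)) ∈ V := by
  have hle : ∀ i, e i + 100 ≤ P := by
    intro i
    fin_cases i
    · show e 0 + 100 ≤ P
      omega
    · show e 1 + 100 ≤ P
      omega
    · exact he2
  have hPe' : ∀ i, Even (P - e i) := by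
    intro i
    have h1 := hPe i
    have h2 := hle i
    rw [Nat.even_iff] at h1 ⊢
    omega
  have hu : Even (2 * P + d) := (even_two_mul P).add hd
  have hP2 : Even (2 * P) := even_two_mul P
  have hPd : Even (2 * P + 2 * d) := (even_two_mul P).add (even_two_mul d)
  have hle0 := hle 0
  have zu := D_pos (2 * P + d) hu (by omega)
  have z1 := D_pos (2 * P) hP2 (by omega)
  have z2 := D_pos (2 * P + 2 * d) hPd (by omega)
  have hdet := hC P d hd100 e he0 he01 he12 he2
  -- the entries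
  have eaa : ∀ i, aa (P - e i) (e i) d = z (P - e i) * z (P + e i + d) +
      z (P + e i) * z (P - e i + d) - 2 * z (2 * P + d) := by
    intro i
    have h1 := hle i
    have e1 : P - e i + 2 * e i + d = P + e i + d := by omega
    have e2 : P - e i + 2 * e i = P + e i := by omega
    have e3 : 2 * (P - e i) + 2 * e i + d = 2 * P + d := by omega
    rw [aa, e1, e2, e3]
  have ebb : ∀ i, bb (P - e i) (e i) = z (P - e i) * z (P + e i) - z (2 * P) := by
    intro i
    have h1 := hle i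
    have e2 : P - e i + 2 * e i = P + e i := by omega
    have e3 : 2 * (P - e i) + 2 * e i = 2 * P := by omega
    rw [bb, e2, e3]
  have egg : ∀ i, bb (P - e i + d) (e i) = z (P - e i + d) * z (P + e i + d) -
      z (2 * P + 2 * d) := by
    intro i
    have h1 := hle i
    have e2 : P - e i + d + 2 * e i = P + e i + d := by omega
    have e3 : 2 * (P - e i + d) + 2 * e i = 2 * P + 2 * d := by omega
    rw [bb, e2, e3]
  have two : (2 : ℝ) ∈ K := by simp
  have one : (1 : ℝ) ∈ K := K.one_mem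
  refine D_cramer V (fun i => aa (P - e i) (e i) d / z (2 * P + d))
    (fun i => bb (P - e i) (e i) / z (2 * P))
    (fun i => bb (P - e i + d) (e i) / z (2 * P + 2 * d))
    (fun i => S (n - (2 * P + d)) (P - e i) (P + e i + d) +
      S (n - (2 * P + d)) (P + e i) (P - e i + d) - S (n - 2 * P) (P - e i) (P + e i) -
      S (n - (2 * P + 2 * d)) (P - e i + d) (P + e i + d))
    (z (2 * P + d) * z (n - (2 * P + d))) (z (2 * P) * z (n - 2 * P))
    (z (2 * P + 2 * d) * z (n - (2 * P + 2 * d))) ?_ ?_ ?_ ?_ ?_ ?_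
  · intro i
    have h1 := hle i
    show aa (P - e i) (e i) d / z (2 * P + d) ∈ K
    have r1 := D_rho K (P - e i) (P + e i + d) (2 * P + d) (hPe' i) (by omega)
      ((hPe i).add hd) (by omega) (by omega)
    have r2 := D_rho K (P + e i) (P - e i + d) (2 * P + d) (hPe i) (by omega)
      ((hPe' i).add hd) (by omega) (by omega)
    have e1 : aa (P - e i) (e i) d / z (2 * P + d) =
        z (P - e i) * z (P + e i + d) / z (2 * P + d) +
        z (P + e i) * z (P - e i + d) / z (2 * P + d) - 2 := by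
      rw [eaa i]
      field_simp
    rw [e1]
    exact K.sub_mem (K.add_mem r1 r2) two
  · intro i
    have h1 := hle i
    show bb (P - e i) (e i) / z (2 * P) ∈ K
    have r1 := D_rho K (P - e i) (P + e i) (2 * P) (hPe' i) (by omega) (hPe i) (by omega)
      (by omega)
    have e1 : bb (P - e i) (e i) / z (2 * P) = z (P - e i) * z (P + e i) / z (2 * P) - 1 := by
      rw [ebb i]
      field_simp
    rw [e1]
    exact K.sub_mem r1 one
  · intro i
    have h1 := hle i
    show bb (P - e i + d) (e i) / z (2 * P + 2 * d) ∈ K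
    have r1 := D_rho K (P - e i + d) (P + e i + d) (2 * P + 2 * d) ((hPe' i).add hd) (by omega)
      ((hPe i).add hd) (by omega) (by omega)
    have e1 : bb (P - e i + d) (e i) / z (2 * P + 2 * d) =
        z (P - e i + d) * z (P + e i + d) / z (2 * P + 2 * d) - 1 := by
      rw [egg i]
      field_simp
    rw [e1]
    exact K.sub_mem r1 one
  · intro i
    have h1 := hle i
    obtain ⟨c1, c2, c3, c4⟩ := hcl i
    exact V.sub_mem (V.sub_mem (V.add_mem
      (thm_AV V _ _ _ (by omega) (by omega) (by omega) c1)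
      (thm_AV V _ _ _ (by omega) (by omega) (by omega) c2))
      (thm_AV V _ _ _ (by omega) (by omega) (by omega) c3))
      (thm_AV V _ _ _ (by omega) (by omega) (by omega) c4)
  · intro i
    have h1 := hle i
    show aa (P - e i) (e i) d / z (2 * P + d) * (z (2 * P + d) * z (n - (2 * P + d))) -
      bb (P - e i) (e i) / z (2 * P) * (z (2 * P) * z (n - 2 * P)) -
      bb (P - e i + d) (e i) / z (2 * P + 2 * d) *
        (z (2 * P + 2 * d) * z (n - (2 * P + 2 * d))) =
      S (n - (2 * P + d)) (P - e i) (P + e i + d) +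
      S (n - (2 * P + d)) (P + e i) (P - e i + d) - S (n - 2 * P) (P - e i) (P + e i) -
      S (n - (2 * P + 2 * d)) (P - e i + d) (P + e i + d)
    rw [D_S n (P - e i) (P + e i + d) (2 * P + d) (by omega) (by omega),
      D_S n (P + e i) (P - e i + d) (2 * P + d) (by omega) (by omega),
      D_S n (P - e i) (P + e i) (2 * P) (by omega) (by omega),
      D_S n (P - e i + d) (P + e i + d) (2 * P + 2 * d) (by omega) (by omega)]
    have f1 : aa (P - e i) (e i) d / z (2 * P + d) * (z (2 * P + d) * z (n - (2 * P + d))) =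
        aa (P - e i) (e i) d * z (n - (2 * P + d)) := by
      field_simp
    have f2 : bb (P - e i) (e i) / z (2 * P) * (z (2 * P) * z (n - 2 * P)) =
        bb (P - e i) (e i) * z (n - 2 * P) := by
      field_simp
    have f3 : bb (P - e i + d) (e i) / z (2 * P + 2 * d) *
        (z (2 * P + 2 * d) * z (n - (2 * P + 2 * d))) =
        bb (P - e i + d) (e i) * z (n - (2 * P + 2 * d)) := by
      field_simp
    rw [f1, f2, f3, eaa i, ebb i, egg i]
    ring
  · rw [Matrix.det_fin_three] at hdet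
    simp only [Matrix.of_apply, Matrix.cons_val_zero, Matrix.cons_val_one, Matrix.cons_val] at hdet
    intro h0
    apply hdet
    have hz : z (2 * P + d) * z (2 * P) * z (2 * P + 2 * d) ≠ 0 := by positivity
    have h2 := congrArg (fun t => t * (z (2 * P + d) * z (2 * P) * z (2 * P + 2 * d))) h0
    simp only [zero_mul] at h2
    rw [← h2]
    field_simp

end Pool.Agent.MZTV
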