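import Pool.Agent.MZTV.Defs
import Pool.Agent.MZA.Zev

/-!
# MZTV / E: the contradiction
-/

set_option autoImplicit false

namespace Pool.Agent.MZTV

open Pool.Agent.Helper21 (mzv H zl Adm tendsto_zl H_cons H_nil H_bddAbove)
open Pool.Agent.MZA Pool.Agent.MZT

private theorem E_zev (a : ℕ) (ha : Even a) (h2 : 2 ≤ a) :
    ∃ q : ℚ, 0 < q ∧ z a = q * Real.pi ^ a := by
  obtain ⟨j, hj⟩ := ha
  obtain ⟨q, hq, h⟩ := thm_Zev j (by omega)
  refine ⟨q, hq, ?_⟩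
  have e : a = 2 * j := by omega
  rw [z, e]
  exact h

private theorem E_pos (a : ℕ) (h2 : 2 ≤ a) : 0 < z a := by
  have hadm : Adm [a] :=
    ⟨by
      intro b hb
      rw [List.mem_singleton] at hb
      omega, by
      intro b t h
      have := (List.cons.inj h).1
      omega⟩
  have h4 : H [a] 1 ≤ zl [a] := le_ciSup (H_bddAbove [a] hadm.1 hadm.2) 1
  have h5 : H [a] 1 = 1 := by
    rw [H_cons]
    simp [H_nil]
  rw [h5] at h4
  rw [z]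
  linarith

/-- **MODULE E.** -/
theorem thm_EV {K : IntermediateField ℚ ℝ} (V : Submodule K ℝ) (n : ℕ) (hK : ¬ Exc V n)
    (u₁ u₂ u₃ b : ℕ) (e1 : Even u₁) (e2 : Even u₂) (e3 : Even u₃) (eb : Even b) (h1 : 2 ≤ u₁)
    (hb : 2 ≤ b) (h3 : 2 ≤ u₃) (hub : u₁ + b = u₂) (hsum : u₁ + u₂ + u₃ = 2 * n)
    (hu2 : u₂ + 3 ≤ n) (hu3 : u₃ + 3 ≤ n) (w1 : z u₁ * z (n - u₁) ∈ V)
    (w2 : z u₂ * z (n - u₂) ∈ V) (w3 : z u₃ * z (n - u₃) ∈ V)
    (wb : z b * z (n - b) ∈ V) (c1 : CleanV V (n - u₂) u₁ b)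
    (c2 : CleanV V (n - u₁) (n - u₂) (n - u₃)) : False := by
  obtain ⟨q₁, hq₁, hz₁⟩ := E_zev u₁ e1 h1
  obtain ⟨q₂, hq₂, hz₂⟩ := E_zev u₂ e2 (by omega)
  obtain ⟨q₃, hq₃, hz₃⟩ := E_zev u₃ e3 h3
  obtain ⟨qb, hqb, hzb⟩ := E_zev b eb hb
  have hpi : Real.pi ≠ 0 := Real.pi_ne_zero
  have hq₁' : (q₁ : ℝ) ≠ 0 := by exact_mod_cast hq₁.ne'
  have hq₂' : (q₂ : ℝ) ≠ 0 := by exact_mod_cast hq₂.ne'
  have hq₃' : (q₃ : ℝ) ≠ 0 := by exact_mod_cast hq₃.ne'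
  have hrat : ∀ q : ℚ, (q : ℝ) ∈ K := fun q => K.algebraMap_mem q
  -- `2 ζ(n)` is in `V`
  have s1 := thm_AV V (n - u₂) u₁ b (by omega) h1 hb c1
  have a1 : n - u₂ + b = n - u₁ := by omega
  have a2 : n - u₂ + u₁ = n - b := by omega
  have a3 : n - b + b = n := by omega
  rw [S, a1, a2, a3, hub] at s1
  have hzn : 2 * z n ∈ V := by
    have hr : z u₁ * z b = ((q₁ * qb / q₂ : ℚ) : ℝ) * z u₂ := by
      rw [hz₁, hz₂, hzb, ← hub, pow_add]
      push_cast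
      field_simp
    have e : 2 * z n = (z (n - u₂) * z u₁ * z b - z (n - u₂) * z u₂ - z u₁ * z (n - u₁) -
        z b * z (n - b) + 2 * z n) - ((q₁ * qb / q₂ : ℚ) : ℝ) * (z u₂ * z (n - u₂)) +
        z u₂ * z (n - u₂) + z u₁ * z (n - u₁) + z b * z (n - b) := by
      have h : z (n - u₂) * z u₁ * z b = z (n - u₂) * (((q₁ * qb / q₂ : ℚ) : ℝ) * z u₂) := by
        rw [← hr]
        ring
      rw [h]
      ring
    rw [e]
    exact V.add_mem (V.add_mem (V.add_mem (V.sub_mem s1 (kmul (hrat _) w2)) w2) w1) wb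
  -- the triple product is in `V`
  have s2 := thm_AV V (n - u₁) (n - u₂) (n - u₃) (by omega) (by omega) (by omega) c2
  have b1 : n - u₂ + (n - u₃) = u₁ := by omega
  have b2 : n - u₁ + (n - u₃) = u₂ := by omega
  have b3 : n - u₁ + (n - u₂) = u₃ := by omega
  have b4 : u₃ + (n - u₃) = n := by omega
  rw [S, b1, b2, b3, b4] at s2
  have hT : z (n - u₁) * z (n - u₂) * z (n - u₃) ∈ V := by
    have e : z (n - u₁) * z (n - u₂) * z (n - u₃) =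
        (z (n - u₁) * z (n - u₂) * z (n - u₃) - z (n - u₁) * z u₁ - z (n - u₂) * z u₂ -
          z (n - u₃) * z u₃ + 2 * z n) + z u₁ * z (n - u₁) + z u₂ * z (n - u₂) +
          z u₃ * z (n - u₃) - 2 * z n := by
      ring
    rw [e]
    exact V.sub_mem (V.add_mem (V.add_mem (V.add_mem s2 w1) w2) w3) hzn
  have p1 := E_pos (n - u₁) (by omega)
  have p2 := E_pos (n - u₂) (by omega)
  have p3 := E_pos (n - u₃) (by omega)
  -- `π ^ (2 n) T` is in `V V V`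
  apply hK
  refine ⟨z (n - u₁) * z (n - u₂) * z (n - u₃), hT, by positivity, ?_⟩
  have e : Real.pi ^ (2 * n) * (z (n - u₁) * z (n - u₂) * z (n - u₃)) =
      ((1 / (q₁ * q₂ * q₃) : ℚ) : ℝ) *
        ((z u₁ * z (n - u₁)) * (z u₂ * z (n - u₂)) * (z u₃ * z (n - u₃))) := by
    rw [hz₁, hz₂, hz₃, ← hsum, pow_add, pow_add]
    push_cast
    field_simp
  rw [e]
  exact kmul (hrat _) (Submodule.mul_mem_mul (Submodule.mul_mem_mul w1 w2) w3)

end Pool.Agent.MZTV
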