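import Pool.Agent.MZTV.Defs
import Pool.Agent.MZT.F

set_option autoImplicit false

/-!
# MZTV, module F: counting triples which are not clean
-/

namespace Pool.Agent.MZTV

open Pool.Agent.Helper21 (mzv H zl Adm)
open Pool.Agent.MZA Pool.Agent.MZT

theorem exists_ordV {K : IntermediateField ℚ ℝ} {V : Submodule K ℝ} {c a b : ℕ}
    (h : ¬ CleanV V c a b) : ∃ i : Fin 6, zl (ord c a b i) ∉ V := by
  by_contra hcon
  push Not at hcon
  exact h ⟨hcon 0, hcon 1, hcon 2, hcon 3, hcon 4, hcon 5⟩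

theorem out3_finiteV {K : IntermediateField ℚ ℝ} (V : Submodule K ℝ) (n : ℕ) : (Out3V V n).Finite := by
  refine (((Finset.range (n + 1) ×ˢ (Finset.range (n + 1) ×ˢ Finset.range (n + 1))).image
    (fun t : ℕ × ℕ × ℕ => [t.1, t.2.1, t.2.2])).finite_toSet).subset ?_
  rintro w ⟨hw, hl, -⟩
  obtain ⟨x', y, t, rfl⟩ := List.length_eq_three.1 hl
  have hs := hw.2.2
  simp only [List.sum_cons, List.sum_nil] at hs
  simp only [Finset.coe_image, Set.mem_image, Finset.mem_coe, Finset.mem_product,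
    Finset.mem_range]
  exact ⟨(x', y, t), ⟨by simp only; omega, by simp only; omega, by simp only; omega⟩, rfl⟩

theorem thm_FV {K : IntermediateField ℚ ℝ} (V : Submodule K ℝ) (n N : ℕ) (T : Type) [Fintype T]
    (f : T → ℕ × ℕ → ℕ × ℕ)
    (hf : ∀ t p, p ∈ Finset.Icc 1 N ×ˢ Finset.Icc 1 N →
      2 ≤ (f t p).1 ∧ 2 ≤ (f t p).2 ∧ (f t p).1 + (f t p).2 + 2 ≤ n)
    (hinj : ∀ t, Set.InjOn (f t) ↑(Finset.Icc 1 N ×ˢ Finset.Icc 1 N))
    (hex : ∀ p ∈ Finset.Icc 1 N ×ˢ Finset.Icc 1 N,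
      ∃ t, ¬ CleanV V (n - ((f t p).1 + (f t p).2)) (f t p).1 (f t p).2) :
    N ^ 2 ≤ 6 * Fintype.card T * (Out3V V n).ncard := by
  set G := Finset.Icc 1 N ×ˢ Finset.Icc 1 N with hG
  set O := (out3_finiteV V n).toFinset with hO
  have h1 : ∀ p : {p // p ∈ G}, ∃ (t : T) (i : Fin 6),
      zl (ord (n - ((f t p.1).1 + (f t p.1).2)) (f t p.1).1 (f t p.1).2 i) ∉ V := by
    rintro ⟨p, hp⟩
    obtain ⟨t, ht⟩ := hex p hp
    obtain ⟨i, hi⟩ := exists_ordV ht
    exact ⟨t, i, hi⟩
  choose t i hti using h1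
  set g : {p // p ∈ G} → T × Fin 6 × List ℕ := fun p =>
    (t p, i p, ord (n - ((f (t p) p.1).1 + (f (t p) p.1).2)) (f (t p) p.1).1 (f (t p) p.1).2 (i p))
    with hg
  have hcard : G.attach.card ≤
      ((Finset.univ : Finset T) ×ˢ ((Finset.univ : Finset (Fin 6)) ×ˢ O)).card := by
    apply Finset.card_le_card_of_injOn g
    · intro p _
      obtain ⟨ha, hb, hab⟩ := hf (t p) p.1 p.2
      have hmem := ord_mem (c := n - ((f (t p) p.1).1 + (f (t p) p.1).2)) (by omega) ha hb (i p)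
      simp only [Finset.coe_product, Set.mem_prod, Finset.coe_univ, Set.mem_univ, true_and,
        Finset.mem_coe, hO, Set.Finite.mem_toFinset]
      refine ⟨⟨fun y hy => by have := hmem y hy; omega, ?_, ?_⟩, ord_length _ _ _ _, hti p⟩
      · intro a w hw
        apply hmem a
        have hw' : ord (n - ((f (t p) p.1).1 + (f (t p) p.1).2)) (f (t p) p.1).1
            (f (t p) p.1).2 (i p) = a :: w := hw
        rw [hw']
        exact List.mem_cons_self
      · rw [ord_sum]
        omega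
    · intro p _ q _ hpq
      simp only [hg, Prod.mk.injEq] at hpq
      obtain ⟨e1, e2, e3⟩ := hpq
      rw [← e1, ← e2] at e3
      obtain ⟨e4, e5⟩ := ord_inj e3
      have e6 : f (t p) p.1 = f (t p) q.1 := Prod.ext e4 e5
      exact Subtype.ext (hinj (t p) p.2 q.2 e6)
  rw [Finset.card_attach, hG, Finset.card_product, Finset.card_product, Finset.card_product,
    Nat.card_Icc, Finset.card_univ, Finset.card_univ, Fintype.card_fin] at hcard
  have h2 : (Out3V V n).ncard = O.card := Set.ncard_eq_toFinset_card _ (out3_finiteV V n)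
  rw [h2]
  have h3 : N + 1 - 1 = N := by omega
  rw [h3] at hcard
  calc N ^ 2 = N * N := sq N
    _ ≤ Fintype.card T * (6 * O.card) := hcard
    _ = 6 * Fintype.card T * O.card := by ring

end Pool.Agent.MZTV
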