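import Mathlib
import Pool.Agent.MZTV.D
import Pool.Agent.MZTV.E
import Pool.Agent.MZTV.F

set_option autoImplicit false

/-!
# MZTV: every weight
-/

namespace Pool.Agent.MZTV

open Pool.Agent.Helper21 (mzv H zl Adm)
open Pool.Agent.MZA Pool.Agent.MZT

/-- three even numbers are never clean -/
theorem not_clean_evenV {K : IntermediateField ℚ ℝ} {V : Submodule K ℝ} {i j k : ℕ}
    (hK : ¬ Exc V (2 * (i + j + k)))
    (hi : 1 ≤ i) (hj : 1 ≤ j) (hk : 1 ≤ k) : ¬ CleanV V (2 * i) (2 * j) (2 * k) := by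
  intro h
  have h1 := thm_AV V (2 * i) (2 * j) (2 * k) (by omega) (by omega) (by omega) h
  have h2 := S_pos (a := 2 * i) (b := 2 * j) (c := 2 * k) (by omega) (by omega) (by omega)
  obtain ⟨q, hq⟩ := S_even hi hj hk
  have hq0 : (q : ℝ) ≠ 0 := by
    intro h0
    rw [hq, h0, zero_mul] at h2
    exact lt_irrefl _ h2
  have hqK : (q : ℝ) ∈ K := K.algebraMap_mem q
  have h3 : Real.pi ^ (2 * (i + j + k)) ∈ V := by
    have h4 : Real.pi ^ (2 * (i + j + k)) = (q : ℝ)⁻¹ * S (2 * i) (2 * j) (2 * k) := by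
      rw [hq, inv_mul_cancel_left₀ hq0]
    rw [h4]
    exact kmul (K.inv_mem hqK) h1
  apply hK
  refine ⟨_, h3, pow_ne_zero _ Real.pi_ne_zero, ?_⟩
  have h5 : Real.pi ^ (2 * (2 * (i + j + k))) * Real.pi ^ (2 * (i + j + k)) =
      Real.pi ^ (2 * (i + j + k)) * Real.pi ^ (2 * (i + j + k)) * Real.pi ^ (2 * (i + j + k)) := by
    ring
  rw [h5]
  exact Submodule.mul_mem_mul (Submodule.mul_mem_mul h3 h3) h3

/-- `n` even, explicit -/
theorem thm_HV {K : IntermediateField ℚ ℝ} (V : Submodule K ℝ) (n : ℕ)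
    (hK : ¬ Exc V n) (hn : 16 ≤ n) (hev : Even n) :
    1 / 1536 * (n : ℝ) ^ 2 ≤ ((Out3V V n).ncard : ℝ) := by
  obtain ⟨m, hm⟩ := hev
  set N := n / 8 with hN
  have h1 := thm_FV V n N Unit (fun _ p => (2 * p.1, 2 * p.2)) (by
    intro t p hp
    rw [Finset.mem_product, Finset.mem_Icc, Finset.mem_Icc] at hp
    simp only
    omega) (by
    intro t p _ p' _ h
    simp only [Prod.mk.injEq] at h
    exact Prod.ext (by omega) (by omega)) (by
    intro p hp
    rw [Finset.mem_product, Finset.mem_Icc, Finset.mem_Icc] at hp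
    refine ⟨(), ?_⟩
    have h2 : n - (2 * p.1 + 2 * p.2) = 2 * (m - p.1 - p.2) := by omega
    show ¬ CleanV V (n - (2 * p.1 + 2 * p.2)) (2 * p.1) (2 * p.2)
    rw [h2]
    refine not_clean_evenV ?_ (by omega) (by omega) (by omega)
    have h7 : 2 * (m - p.1 - p.2 + p.1 + p.2) = n := by omega
    rw [h7]
    exact hK)
  rw [Fintype.card_unit, mul_one] at h1
  have h3 : ((N : ℝ)) ^ 2 ≤ 6 * ((Out3V V n).ncard : ℝ) := by exact_mod_cast h1
  have h4 : (n : ℝ) ≤ 16 * N := by
    have : n ≤ 16 * N := by omega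
    exact_mod_cast this
  have h5 : (n : ℝ) ^ 2 ≤ (16 * N) ^ 2 := pow_le_pow_left₀ (Nat.cast_nonneg n) h4 2
  nlinarith

/-- `n` odd, explicit -/
theorem thm_GV (hC : St_C) {K : IntermediateField ℚ ℝ} (V : Submodule K ℝ) (n : ℕ)
    (hK : ¬ Exc V n) (hn : 40000 ≤ n) (hodd : Odd n) :
    1 / 500000000 * (n : ℝ) ^ 2 ≤ ((Out3V V n).ncard : ℝ) := by
  obtain ⟨m, hm⟩ : ∃ m, m = n / 40 := ⟨_, rfl⟩
  obtain ⟨N, hN⟩ : ∃ N, N = m / 16 := ⟨_, rfl⟩
  have h1 : 40 * m ≤ n := by omega
  have h2 : n < 40 * m + 40 := by omega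
  have hm1 : 1000 ≤ m := by omega
  have hN1 : 16 * N ≤ m := by omega
  have hodd2 := Nat.odd_iff.1 hodd
  have hbox : ∀ p : ℕ × ℕ, p ∈ Finset.Icc 1 N ×ˢ Finset.Icc 1 N →
      1 ≤ p.1 ∧ 16 * p.1 ≤ m ∧ 1 ≤ p.2 ∧ 16 * p.2 ≤ m := by
    intro p hp
    rw [Finset.mem_product, Finset.mem_Icc, Finset.mem_Icc] at hp
    omega
  have hcount : N ^ 2 ≤ 6 * Fintype.card ((Fin 4 × Fin 3 × Fin 4) ⊕ Bool) * (Out3V V n).ncard := by
    apply thm_FV V n N _ (fam n m)
    · rintro t ⟨p, q⟩ hp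
      obtain ⟨a1, a2, a3, a4⟩ := hbox _ hp
      simp only at a1 a2 a3 a4
      rcases t with ⟨j, i, k⟩ | b
      · obtain ⟨c1, c2⟩ := cP_bd n m p q h1 h2 hm1 a1 a2 a3 a4 j
        have c3 := ce_le p q j i
        have c4 := (ce_bd p q j).1
        have c5 : 200 ≤ cd j := by fin_cases j <;> simp [cd]
        have c6 := ce_bd p q j
        change 2 ≤ (pr (cP n m p q j) (cd j) (ce p q j i) k).1 ∧
          2 ≤ (pr (cP n m p q j) (cd j) (ce p q j i) k).2 ∧
          (pr (cP n m p q j) (cd j) (ce p q j i) k).1 + (pr (cP n m p q j) (cd j) (ce p q j i) k).2 + 2 ≤ n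
        have c7 : 100 ≤ ce p q j i := by
          fin_cases i <;> simp only [Fin.zero_eta, Fin.mk_one, Fin.reduceFinMk] <;> omega
        generalize cP n m p q j = P at *
        generalize ce p q j i = e at *
        generalize cd j = d at *
        fin_cases k <;> simp [pr] <;> omega
      · rcases b with _ | _ <;> simp only [fam] <;> omega
    · rintro t ⟨p, q⟩ hp ⟨p', q'⟩ hp' heq
      obtain ⟨a1, a2, a3, a4⟩ := hbox _ hp
      obtain ⟨b1, b2, b3, b4⟩ := hbox _ hp'
      simp only at a1 a2 a3 a4 b1 b2 b3 b4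
      rcases t with ⟨j, i, k⟩ | b
      · obtain ⟨c1, c2⟩ := cP_bd n m p q h1 h2 hm1 a1 a2 a3 a4 j
        obtain ⟨c1', c2'⟩ := cP_bd n m p' q' h1 h2 hm1 b1 b2 b3 b4 j
        have c3 := ce_le p q j i
        have c3' := ce_le p' q' j i
        obtain ⟨d1, d2⟩ := pr_inj (cP n m p q j) (cP n m p' q' j) (cd j) (ce p q j i) (ce p' q' j i)
          (by omega) (by omega) k heq
        clear c1 c2 c1' c2' c3 c3' heq
        have e1 : p = p' ∧ q = q' := by
          fin_cases j <;> fin_cases i <;> simp [cP, ce] at d1 d2 <;> omega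
        rw [e1.1, e1.2]
      · have e1 : p = p' ∧ q = q' := by
          rcases b with _ | _ <;> simp only [fam, Prod.mk.injEq] at heq <;> omega
        rw [e1.1, e1.2]
    · rintro ⟨p, q⟩ hp
      obtain ⟨a1, a2, a3, a4⟩ := hbox _ hp
      simp only at a1 a2 a3 a4
      by_contra hcon
      push Not at hcon
      have hW : ∀ j : Fin 4, z (2 * cP n m p q j + cd j) *
          z (n - (2 * cP n m p q j + cd j)) ∈ V := by
        intro j
        obtain ⟨c1, c2⟩ := cP_bd n m p q h1 h2 hm1 a1 a2 a3 a4 j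
        obtain ⟨c3, c4, c5⟩ := ce_bd p q j
        apply thm_DV hC V n (cP n m p q j) (cd j) (by fin_cases j <;> simp [cd] <;> decide)
          (by fin_cases j <;> simp [cd]) c2 (ce p q j)
          (fun i => even_cP n m p q hodd j i) c3 c4 c5 c1
        intro i
        have c6 := ce_le p q j i
        have hk : ∀ k : Fin 4, CleanV V (n - ((![2 * cP n m p q j + cd j, 2 * cP n m p q j + cd j,
            2 * cP n m p q j, 2 * cP n m p q j + 2 * cd j] : Fin 4 → ℕ) k))
            (pr (cP n m p q j) (cd j) (ce p q j i) k).1 (pr (cP n m p q j) (cd j) (ce p q j i) k).2 := by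
          intro k
          rw [← pr_sum (cP n m p q j) (cd j) (ce p q j i) (by omega) k]
          exact hcon (Sum.inl (j, i, k))
        exact ⟨hk 0, hk 1, hk 2, hk 3⟩
      have w0 := hW 0
      have w1 := hW 1
      have w2 := hW 2
      have w3 := hW 3
      have x0 : 2 * cP n m p q 0 + cd 0 = 20 * m + 4 * p := by simp [cP, cd]; omega
      have x1 : 2 * cP n m p q 1 + cd 1 = 28 * m + 4 * q := by simp [cP, cd]; omega
      have x2 : 2 * cP n m p q 2 + cd 2 = 2 * n - (48 * m + 4 * p + 4 * q) := by simp [cP, cd]; omega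
      have x3 : 2 * cP n m p q 3 + cd 3 = 8 * m + 4 * q - 4 * p := by simp [cP, cd]; omega
      rw [x0] at w0
      rw [x1] at w1
      rw [x2] at w2
      rw [x3] at w3
      refine thm_EV V n hK (20 * m + 4 * p) (28 * m + 4 * q) (2 * n - (48 * m + 4 * p + 4 * q))
        (8 * m + 4 * q - 4 * p) (Nat.even_iff.2 (by omega)) (Nat.even_iff.2 (by omega))
        (Nat.even_iff.2 (by omega)) (Nat.even_iff.2 (by omega)) (by omega) (by omega) (by omega)
        (by omega) (by omega) (by omega) (by omega) w0 w1 w2 w3 ?_ ?_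
      · have h3 := hcon (Sum.inr true)
        simp only [fam] at h3
        have h4 : n - (20 * m + 4 * p + (8 * m + 4 * q - 4 * p)) = n - (28 * m + 4 * q) := by omega
        rwa [h4] at h3
      · have h3 := hcon (Sum.inr false)
        simp only [fam] at h3
        have h4 : n - (n - (28 * m + 4 * q) + (48 * m + 4 * p + 4 * q - n)) = n - (20 * m + 4 * p) := by
          omega
        have h5 : 48 * m + 4 * p + 4 * q - n = n - (2 * n - (48 * m + 4 * p + 4 * q)) := by omega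
        rw [h4, h5] at h3
        exact h3
  have hcard : Fintype.card ((Fin 4 × Fin 3 × Fin 4) ⊕ Bool) = 50 := by
    simp [Fintype.card_sum, Fintype.card_prod]
  rw [hcard] at hcount
  have h3 : n ≤ 1280 * N := by omega
  have h4 : ((N : ℝ)) ^ 2 ≤ 300 * ((Out3V V n).ncard : ℝ) := by
    exact_mod_cast hcount
  have h5 : (n : ℝ) ≤ 1280 * N := by exact_mod_cast h3
  have h6 : (n : ℝ) ^ 2 ≤ (1280 * N) ^ 2 := pow_le_pow_left₀ (by positivity) h5 2
  nlinarith

/-- every weight -/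
theorem thm_FinV (hC : St_C) {K : IntermediateField ℚ ℝ} (V : Submodule K ℝ) (n : ℕ)
    (hK : ¬ Exc V n) (hn : 40000 ≤ n) :
    n ^ 2 ≤ 500000000 * (Out3V V n).ncard := by
  have h : 1 / 500000000 * (n : ℝ) ^ 2 ≤ ((Out3V V n).ncard : ℝ) := by
    rcases Nat.even_or_odd n with he | ho
    · have h1 := thm_HV V n hK (by omega) he
      have h2 : (0 : ℝ) ≤ (n : ℝ) ^ 2 := by positivity
      linarith
    · exact thm_GV hC V n hK hn ho
  have h3 : ((n ^ 2 : ℕ) : ℝ) ≤ ((500000000 * (Out3V V n).ncard : ℕ) : ℝ) := by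
    push_cast
    linarith
  exact_mod_cast h3

end Pool.Agent.MZTV
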