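import Pool.Agent.MZT.A
import Pool.Agent.MZT.G
import Pool.Agent.MZT.HH

set_option autoImplicit false

/-!
# MZTV: triple zeta values outside a space `V` over `K`, every weight
-/

namespace Pool.Agent.MZTV

open Pool.Agent.Helper21 (mzv H zl Adm)
open Pool.Agent.MZA Pool.Agent.MZT

variable {K : IntermediateField ℚ ℝ}

/-- the six values are in `V` -/
def CleanV (V : Submodule K ℝ) (a b c : ℕ) : Prop :=
  zl [a, b, c] ∈ V ∧ zl [a, c, b] ∈ V ∧ zl [b, a, c] ∈ V ∧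
  zl [b, c, a] ∈ V ∧ zl [c, a, b] ∈ V ∧ zl [c, b, a] ∈ V

/-- words of weight `n` and depth 3 with value outside `V` -/
def Out3V (V : Submodule K ℝ) (n : ℕ) : Set (List ℕ) :=
  {w | w ∈ Idx n ∧ w.length = 3 ∧ zl w ∉ V}

/-- MODULE A -/
theorem thm_AV (V : Submodule K ℝ) (a b c : ℕ) (ha : 2 ≤ a) (hb : 2 ≤ b)
    (hc : 2 ≤ c) (h : CleanV V a b c) : S a b c ∈ V := by
  obtain ⟨h1, h2, h3, h4, h5, h6⟩ := h
  rw [S_eq ha hb hc]
  exact V.add_mem (V.add_mem (V.add_mem (V.add_mem (V.add_mem h1 h2) h3) h4) h5) h6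

/-- products with elements of `K` -/
theorem kmul {V : Submodule K ℝ} {a v : ℝ} (ha : a ∈ K) (hv : v ∈ V) : a * v ∈ V :=
  V.smul_mem (⟨a, ha⟩ : K) hv

/-- the exceptional weights: `π ^ (2 n) v` is in `V V V` for some `v` in `V`, `v ≠ 0` -/
def Exc (V : Submodule K ℝ) (n : ℕ) : Prop :=
  ∃ v ∈ V, v ≠ 0 ∧ Real.pi ^ (2 * n) * v ∈ V * V * V

end Pool.Agent.MZTV
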