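import Mathlib
import Pool.Agent.MZTV.Defs
import Pool.Agent.MZF.Flg

set_option autoImplicit false

/-!
# MZTV: the number of the exceptional weights
-/

namespace Pool.Agent.MZTV

open Pool.Agent.MZF

/-- the dimension of a product of two spaces -/
theorem finrank_mul (K : IntermediateField ℚ ℝ) (U W : Submodule K ℝ) [Module.Finite K U]
    [Module.Finite K W] : Module.finrank K (U * W : Submodule K ℝ) ≤
      Module.finrank K U * Module.finrank K W := by
  rw [← Submodule.mulMap_range, ← Module.finrank_tensorProduct]
  exact LinearMap.finrank_range_le _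

theorem fin_mul (K : IntermediateField ℚ ℝ) (U W : Submodule K ℝ) [Module.Finite K U]
    [Module.Finite K W] : Module.Finite K (U * W : Submodule K ℝ) := by
  rw [← Submodule.mulMap_range]
  infer_instance

/-- at most `k ^ 4` exceptional weights -/
theorem exc_card (K : IntermediateField ℚ ℝ) (hK : Transcendental K Real.pi)
    (V : Submodule K ℝ) [Module.Finite K V] (T : Finset ℕ) (hT : ∀ n ∈ T, Exc V n) :
    T.card ≤ Module.finrank K V ^ 4 := by
  classical
  have i1 : Module.Finite K (V * V : Submodule K ℝ) := fin_mul K V V
  have i2 : Module.Finite K (V * V * V : Submodule K ℝ) := fin_mul K (V * V) V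
  have h1 := thm_Flg K ℝ Real.pi hK V (V * V * V) (T.image (fun n => 2 * n)) (by
    intro N hN
    obtain ⟨n, hn, rfl⟩ := Finset.mem_image.1 hN
    exact hT n hn)
  rw [Finset.card_image_of_injective _ (fun a b h => by
    have h' : 2 * a = 2 * b := h
    omega)] at h1
  have h2 := finrank_mul K (V * V) V
  have h3 := finrank_mul K V V
  calc T.card ≤ Module.finrank K V * Module.finrank K (V * V * V : Submodule K ℝ) := h1
    _ ≤ Module.finrank K V * (Module.finrank K V * Module.finrank K V * Module.finrank K V) :=
        Nat.mul_le_mul_left _ (h2.trans (Nat.mul_le_mul_right _ h3))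
    _ = Module.finrank K V ^ 4 := by ring

end Pool.Agent.MZTV
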